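import Pool.Agent.helper92.VT.Spec

/-!
# Row vt:NPO (MP_dc9173_lc): selection by Boolean variables
-/

set_option autoImplicit false

universe u

namespace Pool.Agent.helper92.VT

open MvPolynomial Pool.Agent.helper92.VC

section slp

variable {σ τ : Type} {k : Type u} [Field k]

theorem NPO_avail (f : σ → τ) (l : List (MvPolynomial σ k)) (l0 : List (MvPolynomial τ k))
    (a : MvPolynomial σ k) (h : Avail l a) : Avail (l.map (rename f) ++ l0) (rename f a) := by
  rcases h with ⟨i, rfl⟩ | ⟨c, rfl⟩ | h
  · exact Or.inl ⟨f i, rename_X f i⟩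
  · exact Or.inr (Or.inl ⟨c, rename_C f c⟩)
  · exact Or.inr (Or.inr (List.mem_append_left _ (List.mem_map_of_mem h)))

theorem NPO_slp (f : σ → τ) (l : List (MvPolynomial σ k)) (l0 : List (MvPolynomial τ k))
    (h : SLP l) (h0 : SLP l0) : SLP (l.map (rename f) ++ l0) := by
  induction h with
  | nil => exact h0
  | add l a b hl ha hb ih =>
    rw [List.map_cons, List.cons_append, map_add]
    exact SLP.add _ _ _ ih (NPO_avail f l l0 a ha) (NPO_avail f l l0 b hb)
  | sub l a b hl ha hb ih =>
    rw [List.map_cons, List.cons_append, map_sub]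
    exact SLP.sub _ _ _ ih (NPO_avail f l l0 a ha) (NPO_avail f l l0 b hb)
  | mul l a b hl ha hb ih =>
    rw [List.map_cons, List.cons_append, map_mul]
    exact SLP.mul _ _ _ ih (NPO_avail f l l0 a ha) (NPO_avail f l l0 b hb)

/-- renaming of the variables in a program -/
theorem NPO_rename {ι : Type} (f : σ → τ) (G : ι → MvPolynomial σ k) (r : ℕ)
    (h : CST_E ∅ (Set.range G) r) : CST_E (∅ : Set (MvPolynomial τ k))
      (Set.range fun t => rename f (G t)) r := by
  intro l0 hl0 _
  obtain ⟨l', h1, h2, h3⟩ := h [] SLP.nil (fun s hs => absurd hs (Set.notMem_empty s))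
  rw [List.append_nil] at h1 h3
  refine ⟨l'.map (rename f), NPO_slp f l' l0 h1 hl0, by rwa [List.length_map], ?_⟩
  rintro _ ⟨t, rfl⟩
  exact NPO_avail f l' l0 _ (h3 _ ⟨t, rfl⟩)

theorem NPO_prod {S : Set (MvPolynomial σ k)} {ι : Type} (m : Finset ι)
    (g : ι → MvPolynomial σ k) (r : ℕ) (h : ∀ i ∈ m, CST_E S {g i} r) :
    CST_E S {∏ i ∈ m, g i} (m.card * (r + 1)) := by
  classical
  induction m using Finset.induction_on with
  | empty =>
    have h1 := CST_E_C S (1 : k)
    rw [C_1] at h1
    simpa using h1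
  | insert a s ha ih =>
    rw [Finset.prod_insert ha, Finset.card_insert_of_notMem ha]
    refine CST_E_mono (CST_E_mul (h a (Finset.mem_insert_self _ _))
      (ih fun i hi => h i (Finset.mem_insert_of_mem hi))) subset_rfl subset_rfl ?_
    ring_nf
    omega

theorem NPO_computed {a : MvPolynomial σ k} {r : ℕ} (h : CST_E ∅ {a} r) : ComputedIn a r := by
  obtain ⟨l', h1, h2, h3⟩ := h [] SLP.nil (fun s hs => absurd hs (Set.notMem_empty s))
  rw [List.append_nil] at h1 h3
  exact ⟨l', h1, h2, h3 a rfl⟩

theorem NPO_eval_aeval (θ : σ → MvPolynomial τ k) (f : τ → k) (Φ : MvPolynomial σ k) :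
    eval f (aeval θ Φ) = eval (fun i => eval f (θ i)) Φ := by
  induction Φ using MvPolynomial.induction_on with
  | C a => simp
  | add p q hp hq => rw [map_add, map_add, hp, hq, map_add]
  | mul_X p i hp => rw [map_mul, map_mul, hp, aeval_X, map_mul, eval_X]

theorem NPO_deg_aeval (θ : σ → MvPolynomial τ k) (hθ : ∀ i, (θ i).totalDegree ≤ 1)
    (Φ : MvPolynomial σ k) : (aeval θ Φ).totalDegree ≤ Φ.totalDegree := by
  rw [aeval_def, eval₂_eq]
  refine totalDegree_finsetSum_le fun e he => ?_
  have h1 : ((algebraMap k (MvPolynomial τ k)) (coeff e Φ)).totalDegree = 0 := totalDegree_C _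
  refine (totalDegree_mul _ _).trans ?_
  rw [h1, zero_add]
  refine (totalDegree_finsetProd _ _).trans ?_
  have h2 : ∑ i ∈ e.support, (θ i ^ e i).totalDegree ≤ ∑ i ∈ e.support, e i := by
    refine Finset.sum_le_sum fun i _ => ?_
    refine (totalDegree_pow _ _).trans ?_
    calc e i * (θ i).totalDegree ≤ e i * 1 := Nat.mul_le_mul_left _ (hθ i)
      _ = e i := mul_one _
  refine h2.trans ?_
  exact le_totalDegree he

end slp

theorem NPO_split {m' m : ℕ} {k : Type u} [Field k] (H : (Fin m' → Fin 2) → (Fin m → Fin 2) → k) :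
    ∑ w : Fin (m' + m) → Fin 2, H (fun j => w (Fin.castAdd m j)) (fun j => w (Fin.natAdd m' j)) =
      ∑ a : Fin m → Fin 2, ∑ z : Fin m' → Fin 2, H z a := by
  let E : (Fin (m' + m) → Fin 2) ≃ (Fin m' → Fin 2) × (Fin m → Fin 2) :=
    (Equiv.arrowCongr finSumFinEquiv.symm (Equiv.refl _)).trans
      (Equiv.sumArrowEquivProdArrow _ _ _)
  have h := Fintype.sum_equiv E
    (fun w => H (fun j => w (Fin.castAdd m j)) (fun j => w (Fin.natAdd m' j)))
    (fun p => H p.1 p.2) (fun w => rfl)
  rw [h, Fintype.sum_prod_type_right]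

/-- the term of the one-hot polynomial -/
theorem NPO_oh {m : ℕ} {k : Type u} [Field k] (a : Fin m → Fin 2) (t : Fin m) :
    ((a t : ℕ) : k) * ∏ t' ∈ Finset.univ.erase t, (1 + (-1) * ((a t' : ℕ) : k)) =
      if a = Pi.single t 1 then 1 else 0 := by
  have h01 : ∀ x : Fin 2, x = 0 ∨ x = 1 := by decide
  split_ifs with h
  · rw [h, Pi.single_eq_same]
    rw [Finset.prod_eq_one]
    · simp
    · intro t' ht'
      rw [Pi.single_eq_of_ne (Finset.ne_of_mem_erase ht')]
      simp
  · rcases h01 (a t) with h1 | h1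
    · rw [h1]; simp
    · have h2 : ∃ t' ∈ Finset.univ.erase t, a t' = 1 := by
        by_contra hcon
        push Not at hcon
        apply h
        funext s
        by_cases hs : s = t
        · rw [hs, h1, Pi.single_eq_same]
        · rw [Pi.single_eq_of_ne hs]
          exact (h01 (a s)).resolve_right (hcon s (Finset.mem_erase.2 ⟨hs, Finset.mem_univ _⟩))
      obtain ⟨t', ht', h3⟩ := h2
      rw [Finset.prod_eq_zero ht', mul_zero]
      rw [h3]; simp

/-- ROW vt:NPO. Selection by Boolean variables. -/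
theorem NPO (hSUB : SUB_stmt.{u}) : NPO_stmt.{u} := by
  classical
  intro k _ n d m r Dg m' L D G l β ψ hG hGd hβ hψ
  obtain ⟨Ψ, hΨL, hΨD, hΨ⟩ := hψ
  set V := (Fin n × Fin (d + 1)) ⊕ Fin (m' + m) with hV
  set a : Fin m → MvPolynomial V k := fun t => X (Sum.inr (Fin.natAdd m' t)) with ha
  set y : Fin n × Fin (d + 1) → MvPolynomial V k := fun p =>
    if p.1 ∈ l then ∑ t, (if β t p.1 = (p.2 : ℕ) then a t else 0) else X (Sum.inl p) with hy
  set θ : (Fin n × Fin (d + 1)) ⊕ Fin m' → MvPolynomial V k :=
    Sum.elim y (fun j => X (Sum.inr (Fin.castAdd m j))) with hθ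
  set G' : Fin m → MvPolynomial V k := fun t => rename Sum.inl (G t) with hG'
  set SG : MvPolynomial V k := ∑ t, a t * G' t with hSG
  set OH : MvPolynomial V k :=
    ∑ t, a t * ∏ t' ∈ Finset.univ.erase t, (C 1 + C (-1) * a t') with hOH
  set Ψ' : MvPolynomial V k := aeval θ Ψ with hΨ'
  -- computations
  have c1 : CST_E (∅ : Set (MvPolynomial V k)) (Set.range G') r := NPO_rename Sum.inl G r hG
  have c2 : CST_E (∅ : Set (MvPolynomial V k)) {SG} (r + m * 2) := by
    have h1 : CST_E (∅ ∪ Set.range G') {SG} (m * 2) := by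
      have := CST_E_sum (S := ∅ ∪ Set.range G') (Finset.univ : Finset (Fin m))
        (fun t => a t * G' t) 1 (fun t _ => by
          have := CST_E_mul (CST_E_X (∅ ∪ Set.range G') (Sum.inr (Fin.natAdd m' t) : V))
            (CST_E_self (S := ∅ ∪ Set.range G') (a := G' t) (Or.inr ⟨t, rfl⟩))
          exact this)
      rwa [Finset.card_univ, Fintype.card_fin] at this
    exact CST_E_mono (CST_E_trans c1 h1) subset_rfl Set.subset_union_right le_rfl
  have c3 : CST_E (∅ : Set (MvPolynomial V k)) (Set.range θ) (n * (d + 1) * m) := by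
    have h1 : ∀ p, CST_E (∅ : Set (MvPolynomial V k)) {y p} m := by
      intro p
      by_cases hp : p.1 ∈ l
      · have e : y p = ∑ t, (if β t p.1 = (p.2 : ℕ) then a t else 0) := if_pos hp
        rw [e]
        have := CST_E_sum (S := (∅ : Set (MvPolynomial V k))) (Finset.univ : Finset (Fin m))
          (fun t => if β t p.1 = (p.2 : ℕ) then a t else 0) 0 (fun t _ => by
            split_ifs
            · exact CST_E_X _ _
            · have := CST_E_C (∅ : Set (MvPolynomial V k)) (0 : k)
              rwa [C_0] at this)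
        rwa [Finset.card_univ, Fintype.card_fin, zero_add, mul_one] at this
      · have e : y p = X (Sum.inl p) := if_neg hp
        rw [e]
        exact CST_E_mono (CST_E_X _ _) subset_rfl subset_rfl (Nat.zero_le _)
    have h2 := CST_E_iUnion (S := (∅ : Set (MvPolynomial V k)))
      (Finset.univ : Finset (Fin n × Fin (d + 1))) (fun p => {y p}) m (fun p _ => h1 p)
    rw [Finset.card_univ, Fintype.card_prod, Fintype.card_fin, Fintype.card_fin] at h2
    intro l0 hl0 hs0
    obtain ⟨l', h3, h4, h5⟩ := h2 l0 hl0 hs0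
    refine ⟨l', h3, h4, ?_⟩
    rintro _ ⟨x, rfl⟩
    rcases x with p | j
    · refine h5 _ ?_
      rw [Set.mem_iUnion₂]
      exact ⟨p, Finset.mem_univ _, rfl⟩
    · exact Or.inl ⟨_, rfl⟩
  have c4 : CST_E (∅ : Set (MvPolynomial V k)) {Ψ'} (n * (d + 1) * m + L) := by
    have h1 := hSUB _ _ k θ L Ψ hΨL
    exact CST_E_mono (CST_E_trans c3 (CST_E_mono h1 Set.subset_union_right subset_rfl le_rfl))
      subset_rfl Set.subset_union_right le_rfl
  have c5 : CST_E (∅ : Set (MvPolynomial V k)) {OH} (m * (3 * m + 2)) := by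
    have h1 : ∀ t, CST_E (∅ : Set (MvPolynomial V k)) {C 1 + C (-1) * a t} 2 := fun t =>
      CST_E_add (CST_E_C _ _) (CST_E_mul (CST_E_C _ _) (CST_E_X _ _))
    have h2 : ∀ t, CST_E (∅ : Set (MvPolynomial V k))
        {a t * ∏ t' ∈ Finset.univ.erase t, (C 1 + C (-1) * a t')} (3 * m + 1) := by
      intro t
      have h3 := NPO_prod (S := (∅ : Set (MvPolynomial V k))) (Finset.univ.erase t)
        (fun t' => C 1 + C (-1) * a t') 2 (fun t' _ => h1 t')
      refine CST_E_mono (CST_E_mul (CST_E_X _ _) h3) subset_rfl subset_rfl ?_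
      have h4 : (Finset.univ.erase t).card ≤ m := by
        have := Finset.card_erase_le (s := (Finset.univ : Finset (Fin m))) (a := t)
        rwa [Finset.card_univ, Fintype.card_fin] at this
      omega
    have h5 := CST_E_sum (S := (∅ : Set (MvPolynomial V k))) (Finset.univ : Finset (Fin m)) _
      (3 * m + 1) (fun t _ => h2 t)
    rw [Finset.card_univ, Fintype.card_fin] at h5
    exact h5
  have c6 : ComputedIn (OH * SG * Ψ') (L + r + 8 * (n + 1) * (d + 1) * (m + 1) ^ 2) := by
    refine NPO_computed (CST_E_mono (CST_E_mul (CST_E_mul c5 c2) c4) subset_rfl subset_rfl ?_)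
    have k1 : (m + 1) ^ 2 ≤ (n + 1) * (d + 1) * (m + 1) ^ 2 :=
      Nat.le_mul_of_pos_left _ (by positivity)
    have k2 : n * (d + 1) * m ≤ (n + 1) * (d + 1) * (m + 1) ^ 2 := by
      refine Nat.mul_le_mul (Nat.mul_le_mul_right _ (Nat.le_succ n)) ?_
      nlinarith
    have k3 : 8 * (n + 1) * (d + 1) * (m + 1) ^ 2 = 8 * ((n + 1) * (d + 1) * (m + 1) ^ 2) := by
      ring
    rw [k3]
    nlinarith
  -- degrees
  have dX : ∀ v : V, (X v : MvPolynomial V k).totalDegree = 1 := fun v => totalDegree_X v
  have da : ∀ t, (a t).totalDegree ≤ 1 := fun t => (dX _).le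
  have d1 : OH.totalDegree ≤ m := by
    refine totalDegree_finsetSum_le fun t _ => ?_
    refine (totalDegree_mul _ _).trans ?_
    have h1 : (∏ t' ∈ Finset.univ.erase t, (C 1 + C (-1) * a t')).totalDegree ≤
        (Finset.univ.erase t).card := by
      refine (totalDegree_finsetProd _ _).trans ?_
      rw [Finset.card_eq_sum_ones]
      refine Finset.sum_le_sum fun t' _ => ?_
      refine (totalDegree_add _ _).trans (max_le ?_ ?_)
      · rw [totalDegree_C]; exact Nat.zero_le _
      · refine (totalDegree_mul _ _).trans ?_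
        rw [totalDegree_C, zero_add]
        exact da t'
    have h2 : (Finset.univ.erase t).card + 1 = m := by
      have := Finset.card_erase_add_one (Finset.mem_univ t)
      rwa [Finset.card_univ, Fintype.card_fin] at this
    have := da t
    omega
  have d2 : SG.totalDegree ≤ Dg + 1 := by
    refine totalDegree_finsetSum_le fun t _ => ?_
    refine (totalDegree_mul _ _).trans ?_
    have h1 : (G' t).totalDegree ≤ Dg := (totalDegree_rename_le _ _).trans (hGd t)
    have := da t
    omega
  have d3 : Ψ'.totalDegree ≤ D := by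
    refine (NPO_deg_aeval θ ?_ Ψ).trans hΨD
    rintro (p | j)
    · show (y p).totalDegree ≤ 1
      by_cases hp : p.1 ∈ l
      · have e : y p = ∑ t, (if β t p.1 = (p.2 : ℕ) then a t else 0) := if_pos hp
        rw [e]
        refine totalDegree_finsetSum_le fun t _ => ?_
        split_ifs
        · exact da t
        · rw [totalDegree_zero]; exact Nat.zero_le _
      · have e : y p = X (Sum.inl p) := if_neg hp
        rw [e]
        exact (dX _).le
    · exact (dX _).le
  refine ⟨OH * SG * Ψ', c6, ?_, ?_⟩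
  · refine (totalDegree_mul _ _).trans ?_
    have := totalDegree_mul OH SG
    omega
  -- evaluation
  intro e he
  let H : (Fin m' → Fin 2) → (Fin m → Fin 2) → k := fun z α =>
    (∑ t, if α = Pi.single t 1 then (1 : k) else 0) *
      (∑ t, ((α t : ℕ) : k) * eval (oh k n d e) (G t)) *
      eval (Sum.elim (fun p : Fin n × Fin (d + 1) =>
        if p.1 ∈ l then ∑ t, (if β t p.1 = (p.2 : ℕ) then ((α t : ℕ) : k) else 0)
        else oh k n d e p) fun i => ((z i : ℕ) : k)) Ψ
  have e1 : ∀ w : Fin (m' + m) → Fin 2,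
      eval (Sum.elim (oh k n d e) fun i => ((w i : ℕ) : k)) (OH * SG * Ψ') =
        H (fun j => w (Fin.castAdd m j)) (fun j => w (Fin.natAdd m' j)) := by
    intro w
    set f : V → k := Sum.elim (oh k n d e) fun i => ((w i : ℕ) : k) with hf
    have fa : ∀ t, eval f (a t) = ((w (Fin.natAdd m' t) : ℕ) : k) := fun t => by
      rw [ha]; simp only [eval_X]; rfl
    rw [map_mul, map_mul]
    have g1 : eval f OH = ∑ t, if (fun j => w (Fin.natAdd m' j)) = Pi.single t 1 then (1 : k)
        else 0 := by
      rw [hOH, map_sum]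
      refine Finset.sum_congr rfl fun t _ => ?_
      rw [map_mul, map_prod, fa, ← NPO_oh]
      congr 1
      refine Finset.prod_congr rfl fun t' _ => ?_
      rw [map_add, map_mul, eval_C, eval_C, fa]
    have g2 : eval f SG = ∑ t, ((w (Fin.natAdd m' t) : ℕ) : k) * eval (oh k n d e) (G t) := by
      rw [hSG, map_sum]
      refine Finset.sum_congr rfl fun t _ => ?_
      rw [map_mul, fa, hG']
      simp only
      rw [eval_rename]
      rfl
    have g3 : eval f Ψ' = eval (Sum.elim (fun p : Fin n × Fin (d + 1) =>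
        if p.1 ∈ l then ∑ t, (if β t p.1 = (p.2 : ℕ) then ((w (Fin.natAdd m' t) : ℕ) : k) else 0)
        else oh k n d e p) fun i => ((w (Fin.castAdd m i) : ℕ) : k)) Ψ := by
      rw [hΨ', NPO_eval_aeval]
      congr 2
      funext x
      rcases x with p | j
      · show eval f (y p) = if p.1 ∈ l then _ else _
        by_cases hp : p.1 ∈ l
        · have e : y p = ∑ t, (if β t p.1 = (p.2 : ℕ) then a t else 0) := if_pos hp
          rw [e, if_pos hp, map_sum]
          refine Finset.sum_congr rfl fun t _ => ?_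
          split_ifs
          · exact fa t
          · exact map_zero _
        · have e : y p = X (Sum.inl p) := if_neg hp
          rw [e, if_neg hp, eval_X]
          rfl
      · show eval f (X (Sum.inr (Fin.castAdd m j))) = _
        rw [eval_X]
        rfl
    rw [g1, g2, g3]
  rw [Finset.sum_congr rfl fun w _ => e1 w, NPO_split]
  -- only unit vectors contribute
  have e2 : ∀ (z : Fin m' → Fin 2) (α : Fin m → Fin 2), H z α =
      ∑ t, if α = Pi.single t 1 then H z (Pi.single t 1) else 0 := by
    intro z α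
    have h1 : H z α = (∑ t, if α = Pi.single t 1 then (1 : k) else 0) *
      ((∑ t, ((α t : ℕ) : k) * eval (oh k n d e) (G t)) *
      eval (Sum.elim (fun p : Fin n × Fin (d + 1) =>
        if p.1 ∈ l then ∑ t, (if β t p.1 = (p.2 : ℕ) then ((α t : ℕ) : k) else 0)
        else oh k n d e p) fun i => ((z i : ℕ) : k)) Ψ) := by
      simp only [H]; rw [mul_assoc]
    rw [h1, Finset.sum_mul]
    refine Finset.sum_congr rfl fun t _ => ?_
    by_cases hα : α = Pi.single t 1
    · rw [if_pos hα, if_pos hα, one_mul]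
      have h2 : (∑ s, if (Pi.single t 1 : Fin m → Fin 2) = Pi.single s 1 then (1 : k) else 0) = 1 := by
        rw [Finset.sum_eq_single t]
        · rw [if_pos rfl]
        · intro s _ hs
          rw [if_neg]
          intro h3
          have h4 := congrFun h3 t
          rw [Pi.single_eq_same, Pi.single_eq_of_ne hs.symm] at h4
          exact absurd h4 (by decide)
        · intro h; exact absurd (Finset.mem_univ t) h
      simp only [H]
      rw [h2, one_mul, hα]
    · rw [if_neg hα, if_neg hα, zero_mul]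
  have e3 : ∑ α : Fin m → Fin 2, ∑ z : Fin m' → Fin 2, H z α =
      ∑ t, ∑ z : Fin m' → Fin 2, H z (Pi.single t 1) := by
    rw [Finset.sum_congr rfl fun α _ => Finset.sum_congr rfl fun z _ => e2 z α]
    have h1 : ∀ α : Fin m → Fin 2, ∑ z : Fin m' → Fin 2, ∑ t, (if α = Pi.single t 1 then
        H z (Pi.single t 1) else 0) = ∑ t, ∑ z : Fin m' → Fin 2, (if α = Pi.single t 1 then
        H z (Pi.single t 1) else 0) := fun α => Finset.sum_comm
    rw [Finset.sum_congr rfl fun α _ => h1 α, Finset.sum_comm]
    refine Finset.sum_congr rfl fun t _ => ?_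
    rw [Finset.sum_comm]
    refine Finset.sum_congr rfl fun z _ => ?_
    rw [Finset.sum_ite_eq' Finset.univ (Pi.single t 1 : Fin m → Fin 2) (fun _ => H z (Pi.single t 1)),
      if_pos (Finset.mem_univ _)]
  rw [e3]
  refine Finset.sum_congr rfl fun t _ => ?_
  have he' : ∀ i, ovr l (β t) e i ≤ d := by
    intro i
    unfold ovr
    split_ifs
    · exact hβ t i
    · exact he i
  rw [hΨ _ he', Finset.mul_sum]
  refine Finset.sum_congr rfl fun z _ => ?_
  have h2 : (∑ s, if (Pi.single t 1 : Fin m → Fin 2) = Pi.single s 1 then (1 : k) else 0) = 1 := by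
    rw [Finset.sum_eq_single t]
    · rw [if_pos rfl]
    · intro s _ hs
      rw [if_neg]
      intro h3
      have h4 := congrFun h3 t
      rw [Pi.single_eq_same, Pi.single_eq_of_ne hs.symm] at h4
      exact absurd h4 (by decide)
    · intro h; exact absurd (Finset.mem_univ t) h
  have h3 : (∑ s, ((((Pi.single t 1 : Fin m → Fin 2) s : Fin 2) : ℕ) : k) *
      eval (oh k n d e) (G s)) = eval (oh k n d e) (G t) := by
    rw [Finset.sum_eq_single t]
    · rw [Pi.single_eq_same]; simp
    · intro s _ hs
      rw [Pi.single_eq_of_ne hs]; simp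
    · intro h; exact absurd (Finset.mem_univ t) h
  simp only [H]
  rw [h2, h3, one_mul]
  congr 2
  congr 1
  funext x
  rcases x with p | j
  · show oh k n d (ovr l (β t) e) p = if p.1 ∈ l then _ else _
    unfold oh ovr
    by_cases hp : p.1 ∈ l
    · rw [if_pos hp, if_pos hp, Finset.sum_eq_single t]
      · rw [Pi.single_eq_same]
        by_cases h4 : β t p.1 = (p.2 : ℕ)
        · rw [if_pos h4, if_pos h4]; simp
        · rw [if_neg h4, if_neg h4]
      · intro s _ hs
        rw [Pi.single_eq_of_ne hs]; simp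
      · intro h; exact absurd (Finset.mem_univ t) h
    · rw [if_neg hp, if_neg hp]
  · rfl

end Pool.Agent.helper92.VT
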